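import Pool.Agent.Helper20.HPF.R5
import Pool.Agent.Helper51.HP.M1

open Filter Metric Module Set
open scoped Topology ContDiff RealInnerProductSpace Manifold Quaternion

namespace Pool.Agent.Helper20.HP
open Pool.Agent.Helper20.PC

theorem main3 :
    ∃ κ ε T δ : ℝ, 0 < κ ∧ κ ≤ 1/10 ∧ 0 < δ ∧
      (∀ y : E3, ‖y‖ = 1 → ∀ a, a ≠ 0 → 0 < Mf κ ε T δ y a a) ∧
      ∀ x : E3, ‖x‖ = 1 → ∀ u v : E3 × ℍ[ℝ], ⟪x, u.1⟫ = 0 → u.2.re = 0 → ⟪x, v.1⟫ = 0 → v.2.re = 0 →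
        LinearIndependent ℝ ![u, v] → 0 < num (KK (hE κ) (NE κ ε T δ) (AE κ ε)) (x, 1) u v :=
  Pool.Agent.Helper51.HP.main3_of
    (fun h => fun h1 => fun h2 => fun h3 => fun h4 h5 U V ca sa cb sb =>
      num3_formula h h1 h2 h3 h4 h5 U V ca sa cb sb)
    (fun h => fun h1 => fun h2 h3 => metAt_KK h h1 h2 h3) tstage

end Pool.Agent.Helper20.HP
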