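import Pool.Agent.Helper20.HP.KKDefs
import Pool.Agent.Helper20.HPF.R1
import Pool.Agent.Helper76.HP.P2

/-!
P3a (MP_4e0d62_gt): the Kaluza-Klein formula at a point where the connection vanishes.
-/

open Filter Metric Module Set
open scoped Topology ContDiff RealInnerProductSpace Manifold

namespace Pool.Agent.Helper65.HP
open Pool.Agent.Helper20.PC Pool.Agent.Helper20.HP

noncomputable section

/-! ### Positivity and smoothness of the metrics -/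

section
variable {B W : Type*} [NormedAddCommGroup B] [NormedSpace ℝ B] [NormedAddCommGroup W]
  [NormedSpace ℝ W]

lemma normalMetric_apply (h : B → B →L[ℝ] B →L[ℝ] ℝ) (N : B → W →L[ℝ] W →L[ℝ] ℝ)
    (Λ : B × W → B × W →L[ℝ] W) (z a b : B × W) :
    normalMetric h N Λ z a b = h z.1 a.1 b.1 + N z.1 (Λ z a) (Λ z b) := by
  simp [normalMetric]

lemma contDiffAt_flip {X E F : Type*} [NormedAddCommGroup X] [NormedSpace ℝ X]
    [NormedAddCommGroup E] [NormedSpace ℝ E] [NormedAddCommGroup F] [NormedSpace ℝ F]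
    {n : WithTop ℕ∞} {g : X → E →L[ℝ] F →L[ℝ] ℝ} {z : X} (hg : ContDiffAt ℝ n g z) :
    ContDiffAt ℝ n (fun x => (g x).flip) z := by
  have h0 : IsBoundedLinearMap ℝ (fun g : E →L[ℝ] F →L[ℝ] ℝ => g.flip) :=
    { map_add := fun a b => by ext; simp
      map_smul := fun a b => by ext; simp
      bound := ⟨1, one_pos, fun g => by rw [ContinuousLinearMap.opNorm_flip, one_mul]⟩ }
  have h1 : ContDiff ℝ n (fun g : E →L[ℝ] F →L[ℝ] ℝ => g.flip) := h0.contDiff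
  exact h1.contDiffAt.comp z hg

lemma contDiffAt_bilinearComp {X E F : Type*} [NormedAddCommGroup X] [NormedSpace ℝ X]
    [NormedAddCommGroup E] [NormedSpace ℝ E] [NormedAddCommGroup F] [NormedSpace ℝ F]
    {n : WithTop ℕ∞} {N : X → E →L[ℝ] E →L[ℝ] ℝ} {L : X → F →L[ℝ] E} {z : X}
    (hN : ContDiffAt ℝ n N z) (hL : ContDiffAt ℝ n L z) :
    ContDiffAt ℝ n (fun x => (N x).bilinearComp (L x) (L x)) z := by
  have h1 : ContDiffAt ℝ n (fun x => (N x).comp (L x)) z := hN.clm_comp hL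
  have h2 := contDiffAt_flip h1
  have h3 : ContDiffAt ℝ n (fun x => ((N x).comp (L x)).flip.comp (L x)) z := h2.clm_comp hL
  exact contDiffAt_flip h3

lemma metAt_normalMetric {h : B → B →L[ℝ] B →L[ℝ] ℝ} {N : B → W →L[ℝ] W →L[ℝ] ℝ}
    {Λ : B × W → B × W →L[ℝ] W} {z : B × W} (hh : MetAt h z.1) (hN : FormAt N z.1)
    (hΛ : ContDiffAt ℝ 2 Λ z) (hinj : ∀ᶠ z' in 𝓝 z, ∀ a : W, a ≠ 0 → Λ z' (0, a) ≠ 0) :
    MetAt (normalMetric h N Λ) z := by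
  have hc : Tendsto (fun z' : B × W => z'.1) (𝓝 z) (𝓝 z.1) := continuous_fst.continuousAt
  refine ⟨?_, ?_, ?_⟩
  · have h1 : ContDiffAt ℝ 2 (fun z' : B × W => h z'.1) z := hh.smooth.comp z contDiffAt_fst
    have h2 : ContDiffAt ℝ 2 (fun z' : B × W => N z'.1) z := hN.smooth.comp z contDiffAt_fst
    exact (contDiffAt_bilinearComp h1 contDiffAt_const).add (contDiffAt_bilinearComp h2 hΛ)
  · filter_upwards [hc.eventually hh.symm, hc.eventually hN.symm] with z' h1 h2 a b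
    rw [normalMetric_apply, normalMetric_apply, h1, h2]
  · filter_upwards [hc.eventually hh.pos, hc.eventually hN.pos, hinj] with z' h1 h2 h3 a ha
    rw [normalMetric_apply]
    by_cases ha1 : a.1 = 0
    · have ha2 : a.2 ≠ 0 := by
        intro h0
        exact ha (Prod.ext ha1 h0)
      have h4 := h3 a.2 ha2
      have h5 : (0, a.2) = a := Prod.ext ha1.symm rfl
      rw [h5] at h4
      have := h2 _ h4
      rw [ha1]
      simpa using this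
    · have h4 := h1 _ ha1
      have h5 : 0 ≤ N z'.1 (Λ z' a) (Λ z' a) := by
        by_cases h0 : Λ z' a = 0
        · rw [h0]; simp
        · exact (h2 _ h0).le
      linarith

end

section
variable {B 𝔸 : Type*} [NormedAddCommGroup B] [NormedSpace ℝ B]
    [NormedDivisionRing 𝔸] [NormedAlgebra ℝ 𝔸]

lemma lam_apply (A : B → B →L[ℝ] 𝔸) (z u : B × 𝔸) :
    lam A z u = u.2 * z.2⁻¹ + A z.1 u.1 := by
  simp [lam]

lemma KK_eq (h : B → B →L[ℝ] B →L[ℝ] ℝ) (N : B → 𝔸 →L[ℝ] 𝔸 →L[ℝ] ℝ) (A : B → B →L[ℝ] 𝔸) :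
    KK h N A = normalMetric h N (lam A) := rfl

/-- the chart of the fibre near `1` -/
def psi (z : B × 𝔸) : B × 𝔸 := (z.1, 1 + z.2 + (1/2 : ℝ) • (z.2 * z.2))

/-- its derivative -/
def dpsi (z : B × 𝔸) : B × 𝔸 →L[ℝ] B × 𝔸 :=
  (ContinuousLinearMap.inl ℝ B 𝔸) ∘L (ContinuousLinearMap.fst ℝ B 𝔸) +
    (ContinuousLinearMap.inr ℝ B 𝔸) ∘L
    ((ContinuousLinearMap.id ℝ 𝔸 + (1/2 : ℝ) • (ContinuousLinearMap.mul ℝ 𝔸 z.2
      + (ContinuousLinearMap.mul ℝ 𝔸).flip z.2)) ∘L ContinuousLinearMap.snd ℝ B 𝔸)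

lemma dpsi_apply (z u : B × 𝔸) :
    dpsi z u = (u.1, u.2 + (1/2 : ℝ) • (z.2 * u.2 + u.2 * z.2)) := by
  simp [dpsi]

/-- the pulled back form -/
def Lam (A : B → B →L[ℝ] 𝔸) (z : B × 𝔸) : B × 𝔸 →L[ℝ] 𝔸 := lam A (psi z) ∘L dpsi z

lemma Lam_apply (A : B → B →L[ℝ] 𝔸) (z u : B × 𝔸) :
    Lam A z u = (u.2 + (1/2 : ℝ) • (z.2 * u.2 + u.2 * z.2)) *
      (1 + z.2 + (1/2 : ℝ) • (z.2 * z.2))⁻¹ + A z.1 u.1 := by
  simp [Lam, lam_apply, dpsi_apply, psi]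

lemma hasFDerivAt_psi (z : B × 𝔸) : HasFDerivAt (psi : B × 𝔸 → B × 𝔸) (dpsi z) z := by
  have h2 : HasFDerivAt (fun z : B × 𝔸 => z.2) (ContinuousLinearMap.snd ℝ B 𝔸) z := hasFDerivAt_snd
  have h3 := h2.mul' h2
  have h4 := (((hasFDerivAt_const (1 : 𝔸) z).add h2).add (h3.const_smul (1/2 : ℝ)))
  have h1 : HasFDerivAt (fun z : B × 𝔸 => z.1) (ContinuousLinearMap.fst ℝ B 𝔸) z := hasFDerivAt_fst
  refine (h1.prodMk h4).congr_fderiv ?_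
  ext u <;> simp [dpsi]

lemma contDiff_psi {n : WithTop ℕ∞} : ContDiff ℝ n (psi : B × 𝔸 → B × 𝔸) := by
  unfold psi
  fun_prop

lemma contDiff_dpsi {n : WithTop ℕ∞} : ContDiff ℝ n (dpsi : B × 𝔸 → B × 𝔸 →L[ℝ] B × 𝔸) := by
  have h1 : ContDiff ℝ n (fun z : B × 𝔸 => (ContinuousLinearMap.id ℝ 𝔸 +
      (1/2 : ℝ) • (ContinuousLinearMap.mul ℝ 𝔸 z.2
      + (ContinuousLinearMap.mul ℝ 𝔸).flip z.2)) ∘L ContinuousLinearMap.snd ℝ B 𝔸) := by
    have h2 : ContDiff ℝ n (fun z : B × 𝔸 => ContinuousLinearMap.mul ℝ 𝔸 z.2) :=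
      (ContinuousLinearMap.mul ℝ 𝔸).contDiff.comp contDiff_snd
    have h3 : ContDiff ℝ n (fun z : B × 𝔸 => (ContinuousLinearMap.mul ℝ 𝔸).flip z.2) :=
      (ContinuousLinearMap.mul ℝ 𝔸).flip.contDiff.comp contDiff_snd
    exact (contDiff_const.add ((h2.add h3).const_smul (1/2 : ℝ))).clm_comp contDiff_const
  exact contDiff_const.add (contDiff_const.clm_comp h1)

lemma contDiffAt_inv_div [FiniteDimensional ℝ 𝔸] {n : WithTop ℕ∞} {q : 𝔸} (hq : q ≠ 0) :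
    ContDiffAt ℝ n (fun x : 𝔸 => x⁻¹) q := by
  have : CompleteSpace 𝔸 := FiniteDimensional.complete ℝ 𝔸
  have := contDiffAt_ringInverse (n := n) ℝ (Units.mk0 q hq)
  rw [Units.val_mk0] at this
  refine this.congr_of_eventuallyEq ?_
  exact Filter.Eventually.of_forall fun x => (Ring.inverse_eq_inv x).symm

lemma contDiffAt_lam [FiniteDimensional ℝ 𝔸] {A : B → B →L[ℝ] 𝔸} {z : B × 𝔸}
    (hA : ContDiffAt ℝ 2 A z.1) (hz : z.2 ≠ 0) : ContDiffAt ℝ 2 (lam A) z := by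
  have h1 : ContDiffAt ℝ 2 (fun z : B × 𝔸 => z.2⁻¹) z :=
    (contDiffAt_inv_div hz).comp z contDiffAt_snd
  have h2 : ContDiffAt ℝ 2 (fun z : B × 𝔸 => (ContinuousLinearMap.mul ℝ 𝔸).flip z.2⁻¹) z :=
    (ContinuousLinearMap.mul ℝ 𝔸).flip.contDiff.contDiffAt.comp z h1
  have h3 : ContDiffAt ℝ 2 (fun z : B × 𝔸 => A z.1) z := hA.comp z contDiffAt_fst
  exact (h2.clm_comp contDiffAt_const).add (h3.clm_comp contDiffAt_const)

lemma contDiffAt_Lam [FiniteDimensional ℝ 𝔸] {A : B → B →L[ℝ] 𝔸} {z : B × 𝔸}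
    (hA : ContDiffAt ℝ 2 A z.1) (hz : (psi z).2 ≠ 0) : ContDiffAt ℝ 2 (Lam A) z := by
  have h1 : ContDiffAt ℝ 2 (fun z => lam A (psi z)) z :=
    ContDiffAt.comp z (contDiffAt_lam (z := psi z) hA hz) contDiff_psi.contDiffAt
  exact h1.clm_comp contDiff_dpsi.contDiffAt

lemma hasDerivAt_inv_curve {q : ℝ → 𝔸} {q' : 𝔸} {t : ℝ} (h : HasDerivAt q q' t) (h0 : q t ≠ 0) :
    HasDerivAt (fun s => (q s)⁻¹) (-((q t)⁻¹ * q' * (q t)⁻¹)) t := by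
  have h1 := (hasFDerivAt_inv' (𝕜 := ℝ) h0).comp_hasDerivAt t h
  refine h1.congr_deriv ?_
  simp

/-- the first derivative of `Lam` -/
def DL (A : B → B →L[ℝ] 𝔸) (z u v : B × 𝔸) : 𝔸 :=
  ((1/2 : ℝ) • (u.2 * v.2 + v.2 * u.2)) * (1 + z.2 + (1/2 : ℝ) • (z.2 * z.2))⁻¹
  - (v.2 + (1/2 : ℝ) • (z.2 * v.2 + v.2 * z.2)) * ((1 + z.2 + (1/2 : ℝ) • (z.2 * z.2))⁻¹
    * (u.2 + (1/2 : ℝ) • (z.2 * u.2 + u.2 * z.2)) * (1 + z.2 + (1/2 : ℝ) • (z.2 * z.2))⁻¹)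
  + fderiv ℝ A z.1 u.1 v.1

lemma hasDerivAt_line {E : Type*} [NormedAddCommGroup E] [NormedSpace ℝ E] (z u : E) (t : ℝ) :
    HasDerivAt (fun t : ℝ => z + t • u) u t := by
  have := ((hasDerivAt_id t).smul_const u).const_add z
  simpa using this

lemma hasDerivAt_comp_line {E F : Type*} [NormedAddCommGroup E] [NormedSpace ℝ E]
    [NormedAddCommGroup F] [NormedSpace ℝ F] {f : E → F} {z : E} (hf : DifferentiableAt ℝ f z)
    (u : E) : HasDerivAt (fun t : ℝ => f (z + t • u)) (fderiv ℝ f z u) 0 := by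
  have h5 : HasFDerivAt f (fderiv ℝ f z) (z + (0 : ℝ) • u) := by
    rw [zero_smul, add_zero]; exact hf.hasFDerivAt
  exact h5.comp_hasDerivAt (0 : ℝ) (hasDerivAt_line z u 0)

lemma hasDerivAt_clm_line {E F H : Type*} [NormedAddCommGroup E] [NormedSpace ℝ E]
    [NormedAddCommGroup F] [NormedSpace ℝ F] [NormedAddCommGroup H] [NormedSpace ℝ H]
    {f : E → F →L[ℝ] H} {z : E} (hf : DifferentiableAt ℝ f z)
    (u : E) (v : F) : HasDerivAt (fun t : ℝ => f (z + t • u) v) (fderiv ℝ f z u v) 0 := by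
  have h7 := (hasDerivAt_comp_line hf u).clm_apply (hasDerivAt_const (0 : ℝ) v)
  simpa using h7

lemma hasDerivAt_q (w a : 𝔸) (t : ℝ) : HasDerivAt
    (fun t : ℝ => 1 + (w + t • a) + (1/2 : ℝ) • ((w + t • a) * (w + t • a)))
    (a + (1/2 : ℝ) • ((w + t • a) * a + a * (w + t • a))) t := by
  have h1 := hasDerivAt_line w a t
  have h2 := (h1.const_add 1).add ((h1.mul h1).const_smul (1/2 : ℝ))
  refine h2.congr_deriv ?_
  rw [add_comm (a * (w + t • a))]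

lemma hasDerivAt_p (w a b : 𝔸) (t : ℝ) : HasDerivAt
    (fun t : ℝ => b + (1/2 : ℝ) • ((w + t • a) * b + b * (w + t • a)))
    ((1/2 : ℝ) • (a * b + b * a)) t := by
  have h1 := hasDerivAt_line w a t
  have h2 := (((h1.mul_const b).add (h1.const_mul b)).const_smul (1/2 : ℝ)).const_add b
  exact h2

lemma hasDerivAt_Lam {A : B → B →L[ℝ] 𝔸} {z : B × 𝔸} (hA : DifferentiableAt ℝ A z.1)
    (hz : (1 + z.2 + (1/2 : ℝ) • (z.2 * z.2)) ≠ 0) (u v : B × 𝔸) :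
    HasDerivAt (fun t : ℝ => Lam A (z + t • u) v) (DL A z u v) 0 := by
  have h1 := hasDerivAt_p z.2 u.2 v.2 0
  have h2 := hasDerivAt_q z.2 u.2 0
  have h3 := hasDerivAt_inv_curve h2 (by simpa using hz)
  have h4 := hasDerivAt_clm_line hA u.1 v.1
  have h8 := (h1.mul h3).add h4
  have h9 : (fun t : ℝ => Lam A (z + t • u) v) = fun t : ℝ =>
      (v.2 + (1/2 : ℝ) • ((z.2 + t • u.2) * v.2 + v.2 * (z.2 + t • u.2))) *
      (1 + (z.2 + t • u.2) + (1/2 : ℝ) • ((z.2 + t • u.2) * (z.2 + t • u.2)))⁻¹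
      + A (z.1 + t • u.1) v.1 := by
    funext t
    rw [Lam_apply]
    rfl
  rw [h9]
  refine h8.congr_deriv ?_
  simp only [zero_smul, add_zero, DL]
  rw [mul_neg, sub_eq_add_neg]

lemma fderiv_Lam [FiniteDimensional ℝ 𝔸] {A : B → B →L[ℝ] 𝔸} {z : B × 𝔸}
    (hA : ContDiffAt ℝ 2 A z.1) (hz : (psi z).2 ≠ 0) (u v : B × 𝔸) :
    fderiv ℝ (Lam A) z u v = DL A z u v := by
  have h1 : DifferentiableAt ℝ (Lam A) z := (contDiffAt_Lam hA hz).differentiableAt (by norm_num)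
  have h2 := hasDerivAt_Lam (hA.differentiableAt (by norm_num)) hz u v
  exact (hasDerivAt_clm_line h1 u v).unique h2

lemma DL_zero (A : B → B →L[ℝ] 𝔸) (x : B) (u v : B × 𝔸) :
    DL A (x, 0) u v = (1/2 : ℝ) • br u.2 v.2 + fderiv ℝ A x u.1 v.1 := by
  simp only [DL, br]
  simp only [mul_zero, zero_mul, add_zero, smul_zero, inv_one, mul_one, one_mul]
  module

lemma contDiffAt_fderiv_apply {E F H : Type*} [NormedAddCommGroup E] [NormedSpace ℝ E]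
    [NormedAddCommGroup F] [NormedSpace ℝ F] [NormedAddCommGroup H] [NormedSpace ℝ H]
    {f : E → F →L[ℝ] H} {z : E} (hf : ContDiffAt ℝ 2 f z) (u : E) (v : F) :
    ContDiffAt ℝ 1 (fun z' => fderiv ℝ f z' u v) z :=
  ((hf.fderiv_right (m := 1) (by norm_num)).clm_apply contDiffAt_const).clm_apply contDiffAt_const

lemma eventually_psi_ne (x : B) : ∀ᶠ z' : B × 𝔸 in 𝓝 (x, 0), (psi z').2 ≠ 0 := by
  have h1 : ContinuousAt (fun z' : B × 𝔸 => (psi z').2) (x, 0) := by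
    have : Continuous (psi : B × 𝔸 → B × 𝔸) := (contDiff_psi (n := 0)).continuous
    exact (continuous_snd.comp this).continuousAt
  have h2 : (psi ((x, 0) : B × 𝔸)).2 ≠ 0 := by simp [psi]
  exact h1.eventually_ne h2

lemma fderiv2_Lam [FiniteDimensional ℝ 𝔸] {A : B → B →L[ℝ] 𝔸} {x : B}
    (hA : ContDiffAt ℝ 2 A x) (s u v : B × 𝔸) :
    fderiv ℝ (fun z' => fderiv ℝ (Lam A) z' u v) (x, 0) s
      = - (1/2 : ℝ) • (u.2 * v.2 * s.2 + s.2 * v.2 * u.2)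
        + fderiv ℝ (fun x' => fderiv ℝ A x' u.1 v.1) x s.1 := by
  have hz : (psi ((x, 0) : B × 𝔸)).2 ≠ 0 := by simp [psi]
  have hc : Tendsto (fun z' : B × 𝔸 => z'.1) (𝓝 (x, 0)) (𝓝 x) := continuous_fst.continuousAt
  have h1 : (fun z' => fderiv ℝ (Lam A) z' u v) =ᶠ[𝓝 ((x, 0) : B × 𝔸)]
      (fun z' => DL A z' u v) := by
    filter_upwards [hc.eventually (hA.eventually (by norm_num)), eventually_psi_ne x] with z' a b
    exact fderiv_Lam a b u v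
  have h2 : DifferentiableAt ℝ (fun z' => fderiv ℝ (Lam A) z' u v) ((x, 0) : B × 𝔸) :=
    (contDiffAt_fderiv_apply (contDiffAt_Lam hA hz) u v).differentiableAt (by norm_num)
  have h3 : DifferentiableAt ℝ (fun z' => DL A z' u v) ((x, 0) : B × 𝔸) :=
    h2.congr_of_eventuallyEq h1.symm
  rw [h1.fderiv_eq]
  have h4 := hasDerivAt_comp_line h3 s
  refine h4.unique ?_
  have k1 := hasDerivAt_q (0 : 𝔸) s.2 0
  have k2 := hasDerivAt_inv_curve k1 (by simp)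
  have k3 := hasDerivAt_p (0 : 𝔸) s.2 v.2 0
  have k4 := hasDerivAt_p (0 : 𝔸) s.2 u.2 0
  have k5 : DifferentiableAt ℝ (fun x' => fderiv ℝ A x' u.1 v.1) x :=
    (contDiffAt_fderiv_apply hA u.1 v.1).differentiableAt (by norm_num)
  have k6 := hasDerivAt_comp_line k5 s.1
  have k7 := ((k2.const_mul ((1/2 : ℝ) • (u.2 * v.2 + v.2 * u.2))).sub
    (k3.mul ((k2.mul k4).mul k2))).add k6
  refine k7.congr_deriv ?_
  simp only [Pi.mul_apply, zero_smul, add_zero, mul_zero, zero_mul, smul_zero, inv_one, mul_one, one_mul]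
  congr 1
  simp only [mul_add, add_mul, smul_add, smul_mul_assoc, mul_smul_comm, mul_neg, neg_mul,
    mul_assoc]
  module

/-! ### Polarisation -/

lemma fderiv_anti {A : B → B →L[ℝ] 𝔸} {x : B} (hA1 : ∀ ζ, fderiv ℝ A x ζ ζ = 0) (ζ ζ' : B) :
    fderiv ℝ A x ζ' ζ = - fderiv ℝ A x ζ ζ' := by
  have h := hA1 (ζ + ζ')
  simp only [map_add, add_apply, hA1, zero_add, add_zero] at h
  exact eq_neg_of_add_eq_zero_left h

lemma Om_zero {A : B → B →L[ℝ] 𝔸} {x : B} (hA0 : A x = 0) (hA1 : ∀ ζ, fderiv ℝ A x ζ ζ = 0)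
    (ζ ζ' : B) : Om A x ζ ζ' = (2 : ℝ) • fderiv ℝ A x ζ ζ' := by
  rw [Om, hA0, fderiv_anti hA1 ζ ζ']
  simp only [zero_apply, br, mul_zero, sub_zero, add_zero]
  module

lemma cc_Lam [FiniteDimensional ℝ 𝔸] {A : B → B →L[ℝ] 𝔸} {x : B} (hA : ContDiffAt ℝ 2 A x)
    (hA0 : A x = 0) (hA1 : ∀ ζ, fderiv ℝ A x ζ ζ = 0) (u v : B × 𝔸) :
    cc (B := B) (W := 𝔸) (Lam A) (x, 0) u v = br u.2 v.2 + Om A x u.1 v.1 := by
  rw [cc, fderiv_Lam hA (by simp [psi]), DL_zero, Om_zero hA0 hA1]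
  module

lemma fderiv_br_zero {A : B → B →L[ℝ] 𝔸} {x : B} (hA : DifferentiableAt ℝ A x) (hA0 : A x = 0)
    (ζ ζ' ξ : B) : HasDerivAt (fun t : ℝ => br (A (x + t • ξ) ζ) (A (x + t • ξ) ζ')) 0 0 := by
  have h1 := hasDerivAt_clm_line hA ξ ζ
  have h2 := hasDerivAt_clm_line hA ξ ζ'
  have h3 := (h1.mul h2).sub (h2.mul h1)
  refine h3.congr_deriv ?_
  simp [hA0]

lemma DOm_zero {h : B → B →L[ℝ] B →L[ℝ] ℝ} {A : B → B →L[ℝ] 𝔸} {x : B}
    (hA : ContDiffAt ℝ 2 A x) (hA0 : A x = 0) (ξ ζ ζ' : B) :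
    DOm h A x ξ ζ ζ' = fderiv ℝ (fun x' => fderiv ℝ A x' ζ ζ') x ξ
      - fderiv ℝ (fun x' => fderiv ℝ A x' ζ' ζ) x ξ
      - Om A x (Gam h x ξ ζ) ζ' - Om A x ζ (Gam h x ξ ζ') := by
  have hd : DifferentiableAt ℝ A x := hA.differentiableAt (by norm_num)
  have d1 : DifferentiableAt ℝ (fun x' => fderiv ℝ A x' ζ ζ') x :=
    (contDiffAt_fderiv_apply hA ζ ζ').differentiableAt (by norm_num)
  have d2 : DifferentiableAt ℝ (fun x' => fderiv ℝ A x' ζ' ζ) x :=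
    (contDiffAt_fderiv_apply hA ζ' ζ).differentiableAt (by norm_num)
  have d3 : DifferentiableAt ℝ (fun x' => A x' ζ) x := hd.clm_apply (differentiableAt_const ζ)
  have d4 : DifferentiableAt ℝ (fun x' => A x' ζ') x := hd.clm_apply (differentiableAt_const ζ')
  have d5 : DifferentiableAt ℝ (fun x' => Om A x' ζ ζ') x := by
    unfold Om br
    exact (d1.sub d2).add ((d3.mul d4).sub (d4.mul d3))
  have e1 := hasDerivAt_comp_line d5 ξ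
  have e2 := ((hasDerivAt_comp_line d1 ξ).sub (hasDerivAt_comp_line d2 ξ)).add
    (fderiv_br_zero hd hA0 ζ ζ' ξ)
  have e3 := e1.unique e2
  rw [DOm, e3, hA0]
  simp [br]

lemma ee_Lam [FiniteDimensional ℝ 𝔸] {h : B → B →L[ℝ] B →L[ℝ] ℝ} {A : B → B →L[ℝ] 𝔸} {x : B}
    (hA : ContDiffAt ℝ 2 A x)
    (hA0 : A x = 0) (hA1 : ∀ ζ, fderiv ℝ A x ζ ζ = 0) (u v : B × 𝔸) :
    ee (B := B) (W := 𝔸) h (Lam A) (x, 0) u v
      = (1/2 : ℝ) • br u.2 (br u.2 v.2) + DOm h A x u.1 u.1 v.1 := by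
  rw [ee, fderiv2_Lam hA, fderiv2_Lam hA, cc_Lam hA hA0 hA1, cc_Lam hA hA0 hA1, DOm_zero hA hA0]
  simp only [br, zero_mul, mul_zero, sub_zero, zero_add, mul_sub, sub_mul, mul_assoc]
  module

lemma cN1_zero {N : B → 𝔸 →L[ℝ] 𝔸 →L[ℝ] ℝ} {A : B → B →L[ℝ] 𝔸} {x : B} (hA0 : A x = 0)
    (ζ : B) (a b : 𝔸) : cN1 N A x ζ a b = dN N x ζ a b := by
  simp [cN1, hA0, br]

lemma s2_zero {A : B → B →L[ℝ] 𝔸} {x : B} (hA0 : A x = 0)
    (hA1 : ∀ ζ, fderiv ℝ A x ζ ζ = 0) (ζ ζ' : B) (a : 𝔸) : s2 A x ζ ζ' a = 0 := by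
  simp [s2, hA0, br, fderiv_anti hA1 ζ ζ']

lemma cN2_zero {h : B → B →L[ℝ] B →L[ℝ] ℝ} {N : B → 𝔸 →L[ℝ] 𝔸 →L[ℝ] ℝ} {A : B → B →L[ℝ] 𝔸}
    {x : B} (hA0 : A x = 0)
    (hA1 : ∀ ζ, fderiv ℝ A x ζ ζ = 0) (ζ ζ' : B) (a b : 𝔸) :
    cN2 h N A x ζ ζ' a b = hessN h N x ζ ζ' a b := by
  rw [cN2, s2_zero hA0 hA1, s2_zero hA0 hA1, cN1_zero hA0, hessN, hA0]
  simp [br, dN]

omit [NormedAddCommGroup B] [NormedSpace ℝ B] in
lemma psi_zero (x : B) : psi ((x, 0) : B × 𝔸) = (x, 1) := by simp [psi]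

lemma dpsi_zero (x : B) (u : B × 𝔸) : dpsi ((x, 0) : B × 𝔸) u = u := by simp [dpsi_apply]

lemma lam_inj {A : B → B →L[ℝ] 𝔸} {z : B × 𝔸} (hz : z.2 ≠ 0) {a : 𝔸} (ha : a ≠ 0) :
    lam A z (0, a) ≠ 0 := by
  rw [lam_apply]
  simpa using ⟨ha, hz⟩

lemma Lam_inj (A : B → B →L[ℝ] 𝔸) (x : B) : ∀ᶠ z' : B × 𝔸 in 𝓝 (x, 0), ∀ a : 𝔸, a ≠ 0 →
    Lam A z' (0, a) ≠ 0 := by
  have h1 : ∀ᶠ z' : B × 𝔸 in 𝓝 (x, 0), ‖z'.2‖ < 1 := by
    have h2 : ContinuousAt (fun z' : B × 𝔸 => ‖z'.2‖) (x, 0) := by fun_prop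
    exact h2.eventually_lt continuousAt_const (by simp)
  filter_upwards [h1, eventually_psi_ne x] with z' h1 h2 a ha
  rw [Lam_apply]
  simp only [map_zero, add_zero]
  refine mul_ne_zero ?_ (inv_ne_zero h2)
  intro h0
  have h3 : a = - ((1/2 : ℝ) • (z'.2 * a + a * z'.2)) := eq_neg_of_add_eq_zero_left h0
  have h4 : ‖a‖ ≤ 1/2 * (‖z'.2‖ * ‖a‖ + ‖a‖ * ‖z'.2‖) := by
    calc ‖a‖ = ‖(1/2 : ℝ) • (z'.2 * a + a * z'.2)‖ := by
          conv_lhs => rw [h3]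
          rw [norm_neg]
      _ = 1/2 * ‖z'.2 * a + a * z'.2‖ := by rw [norm_smul]; norm_num
      _ ≤ 1/2 * (‖z'.2 * a‖ + ‖a * z'.2‖) := by gcongr; exact norm_add_le _ _
      _ = 1/2 * (‖z'.2‖ * ‖a‖ + ‖a‖ * ‖z'.2‖) := by rw [norm_mul, norm_mul]
  have h5 : 0 < ‖a‖ := norm_pos_iff.2 ha
  nlinarith

lemma metAt_Lam [FiniteDimensional ℝ 𝔸] {h : B → B →L[ℝ] B →L[ℝ] ℝ}
    {N : B → 𝔸 →L[ℝ] 𝔸 →L[ℝ] ℝ} {A : B → B →L[ℝ] 𝔸} {x : B} (hh : MetAt h x) (hN : FormAt N x)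
    (hA : ContDiffAt ℝ 2 A x) : MetAt (normalMetric h N (Lam A)) (x, 0) :=
  metAt_normalMetric (z := ((x, 0) : B × 𝔸)) hh hN (contDiffAt_Lam hA (by simp [psi]))
    (Lam_inj A x)

lemma metAt_KK_one [FiniteDimensional ℝ 𝔸] {h : B → B →L[ℝ] B →L[ℝ] ℝ}
    {N : B → 𝔸 →L[ℝ] 𝔸 →L[ℝ] ℝ} {A : B → B →L[ℝ] 𝔸} {x : B} {q : 𝔸} (hq : q ≠ 0)
    (hh : MetAt h x) (hN : FormAt N x)
    (hA : ContDiffAt ℝ 2 A x) : MetAt (KK h N A) (x, q) := by
  rw [KK_eq]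
  refine metAt_normalMetric (z := ((x, q) : B × 𝔸)) hh hN (contDiffAt_lam hA hq) ?_
  have h1 : ContinuousAt (fun z' : B × 𝔸 => z'.2) (x, q) := by fun_prop
  filter_upwards [h1.eventually_ne hq] with z' h2 a ha
  exact lam_inj h2 ha

end

/-- **P3a**: the Kaluza-Klein formula at a point where the connection vanishes. -/
theorem kk_num_zero {B 𝔸 : Type*} [NormedAddCommGroup B] [NormedSpace ℝ B]
    [FiniteDimensional ℝ B] [NormedDivisionRing 𝔸] [NormedAlgebra ℝ 𝔸] [FiniteDimensional ℝ 𝔸]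
    {h : B → B →L[ℝ] B →L[ℝ] ℝ} {N : B → 𝔸 →L[ℝ] 𝔸 →L[ℝ] ℝ} {A : B → B →L[ℝ] 𝔸} {x : B}
    (hh : MetAt h x) (hN : FormAt N x) (hA : ContDiffAt ℝ 2 A x)
    (hA0 : A x = 0) (hA1 : ∀ ζ, fderiv ℝ A x ζ ζ = 0)
    (ζ ζ' : B) (η η' : 𝔸) {th thu thv : B} {tv tvu tvv : 𝔸}
    (h1 : IsKH h N A x ζ η ζ' η' th) (h2 : IsKH h N A x ζ η ζ η thu)
    (h3 : IsKH h N A x ζ' η' ζ' η' thv)
    (h4 : IsKV N A x ζ η ζ' η' tv) (h5 : IsKV N A x ζ η ζ η tvu)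
    (h6 : IsKV N A x ζ' η' ζ' η' tvv) :
    num (KK h N A) (x, 1) (ζ, η) (ζ', η') = kkRHS h N A x ζ η ζ' η' th thu thv tv tvu tvv := by
  have hM : MetAt (normalMetric h N (Lam A)) (x, 0) := metAt_Lam hh hN hA
  have hM' : MetAt (KK h N A) (psi ((x, 0) : B × 𝔸)) := by
    rw [psi_zero]; exact metAt_KK_one one_ne_zero hh hN hA
  have hfd : fderiv ℝ (psi : B × 𝔸 → B × 𝔸) (x, 0) = dpsi (x, 0) := (hasFDerivAt_psi _).fderiv
  have key := Pool.Agent.Helper20.HP.num_pullback (G := normalMetric h N (Lam A)) (G' := KK h N A)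
    (φ := (psi : B × 𝔸 → B × 𝔸)) (z := ((x, 0) : B × 𝔸)) contDiff_psi.contDiffAt hM' hM
    (by
      intro u
      refine ⟨u, ?_⟩
      rw [hfd, dpsi_zero])
    (by
      refine Filter.Eventually.of_forall fun w a b => ?_
      rw [normalMetric_apply, KK_eq, normalMetric_apply, (hasFDerivAt_psi w).fderiv,
        dpsi_apply, dpsi_apply, Lam, ContinuousLinearMap.comp_apply,
        ContinuousLinearMap.comp_apply, dpsi_apply, dpsi_apply]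
      rfl) (ζ, η) (ζ', η')
  rw [hfd, dpsi_zero, dpsi_zero, psi_zero] at key
  rw [← key]
  have hcc := fun u v : B × 𝔸 => cc_Lam hA hA0 hA1 u v
  have hIH : ∀ (u v : B × 𝔸) (t : B), IsKH h N A x u.1 u.2 v.1 v.2 t →
      IsH h N (Lam A) (x, 0) u v t := by
    intro u v t ht ξ
    have := ht ξ
    rw [cN1_zero hA0] at this
    rw [hcc, hcc]
    simpa [br] using this
  have hIV : ∀ (u v : B × 𝔸) (t : 𝔸), IsKV N A x u.1 u.2 v.1 v.2 t →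
      IsV N (Lam A) (x, 0) u v t := by
    intro u v t ht ξ
    have := ht ξ
    rw [cN1_zero hA0, cN1_zero hA0] at this
    rw [hcc, hcc, Om_zero hA0 hA1, Om_zero hA0 hA1]
    simpa using this
  have main := Pool.Agent.Helper76.HP.num_normal (h := h) (N := N) (Λ := Lam A) (z := ((x, 0) : B × 𝔸)) hh hN
    (contDiffAt_Lam hA (by simp [psi]))
    (fun u => by rw [Lam_apply]; simp [hA0])
    (fun u => by
      rw [fderiv_Lam hA (by simp [psi]), DL_zero, hA1]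
      simp [br]) (ζ, η) (ζ', η')
    (hIH (ζ, η) (ζ', η') th h1) (hIH (ζ, η) (ζ, η) thu h2) (hIH (ζ', η') (ζ', η') thv h3)
    (hIV (ζ, η) (ζ', η') tv h4) (hIV (ζ, η) (ζ, η) tvu h5) (hIV (ζ', η') (ζ', η') tvv h6)
  rw [main, kkRHS, hcc, ee_Lam hA hA0 hA1, ee_Lam hA hA0 hA1, cN2_zero hA0 hA1,
    cN2_zero hA0 hA1, cN2_zero hA0 hA1, cN1_zero hA0, cN1_zero hA0]

end

end Pool.Agent.Helper65.HP
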