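import Pool.Agent.Helper20.HPF.R6
import Pool.Agent.Helper28.HP.BR1
import Pool.Agent.Helper8.HP.BR2
import Pool.Agent.Helper64.HP.BR4

open Filter Metric Module Set
open scoped Topology ContDiff RealInnerProductSpace Manifold Quaternion

set_option maxSynthPendingDepth 3

namespace Pool.Agent.Helper20.HP
open Pool.Agent.Helper20.PC

section
variable {E₁ E₂ : Type} [NormedAddCommGroup E₁] [InnerProductSpace ℝ E₁] [FiniteDimensional ℝ E₁]
  [NormedAddCommGroup E₂] [InnerProductSpace ℝ E₂] [FiniteDimensional ℝ E₂]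
  {k l : ℕ} [Fact (finrank ℝ E₁ = k + 1)] [Fact (finrank ℝ E₂ = l + 1)]

/-- From the ambient description of a metric to Mathlib's notion of Riemannian metric. -/
theorem admits_of_sectional
    (g : sphere (0 : E₁) 1 × sphere (0 : E₂) 1 → (E₁ × E₂) →L[ℝ] (E₁ × E₂) →L[ℝ] ℝ)
    (h1 : ContMDiff ((𝓡 k).prod (𝓡 l)) 𝓘(ℝ, (E₁ × E₂) →L[ℝ] (E₁ × E₂) →L[ℝ] ℝ) ∞ g)
    (h2 : ∀ p u v, g p u v = g p v u)
    (h3 : ∀ (p : sphere (0 : E₁) 1 × sphere (0 : E₂) 1) (u : E₁ × E₂), ⟪(p.1 : E₁), u.1⟫ = 0 →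
      ⟪(p.2 : E₂), u.2⟫ = 0 → u ≠ 0 → 0 < g p u u)
    (h4 : ∀ (p : sphere (0 : E₁) 1 × sphere (0 : E₂) 1) (u v : E₁ × E₂),
      ⟪(p.1 : E₁), u.1⟫ = 0 → ⟪(p.2 : E₂), u.2⟫ = 0 → ⟪(p.1 : E₁), v.1⟫ = 0 → ⟪(p.2 : E₂), v.2⟫ = 0 →
      LinearIndependent ℝ ![u, v] → 0 < sectional g p u v) :
    AdmitsPositiveCurvature ((𝓡 k).prod (𝓡 l)) (sphere (0 : E₁) 1 × sphere (0 : E₂) 1) := by
  obtain ⟨g', hg'⟩ := Pool.Agent.Helper28.HP.exists_metric (k := k) (l := l) g h1 h2 h3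
  refine ⟨g', fun p u v huv => ?_⟩
  rw [Pool.Agent.Helper8.HP.BR2.sectionalCurvature_eq g h1 h2 h3 g' hg' p u v]
  obtain ⟨hinj, htan⟩ := Pool.Agent.Helper28.HP.dinc_prop (k := k) (l := l) p
  refine h4 p _ _ (htan u).1 (htan u).2 (htan v).1 (htan v).2 ?_
  rw [LinearIndependent.pair_iff] at huv ⊢
  intro s t hst
  apply huv s t
  apply hinj
  rw [map_add, map_smul, map_smul, map_zero]
  exact hst

end

/-- `S² × S²` admits a Riemannian metric of positive sectional curvature. -/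
theorem positive_S2S2 : AdmitsPositiveCurvature ((𝓡 2).prod (𝓡 2))
    (sphere (0 : EuclideanSpace ℝ (Fin 3)) 1 × sphere (0 : EuclideanSpace ℝ (Fin 3)) 1) := by
  obtain ⟨g, h1, h2, h3, h4⟩ := final2
  exact admits_of_sectional g h1 h2 h3 h4

/-- `S² × S³` admits a Riemannian metric of positive sectional curvature. -/
theorem positive_S2S3 : AdmitsPositiveCurvature ((𝓡 2).prod (𝓡 3))
    (sphere (0 : EuclideanSpace ℝ (Fin 3)) 1 × sphere (0 : EuclideanSpace ℝ (Fin 4)) 1) := by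
  have : Fact (finrank ℝ (EuclideanSpace ℝ (Fin 4)) = 3 + 1) := ⟨by simp⟩
  obtain ⟨g, h1, h2, h3, h4⟩ := Pool.Agent.Helper64.HP.transfer
    (E₂' := EuclideanSpace ℝ (Fin 4)) Quaternion.linearIsometryEquivTuple.symm final3
  exact admits_of_sectional g h1 h2 h3 h4

end Pool.Agent.Helper20.HP
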