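import Pool.Agent.Helper20.HPF.P3b

open Filter Metric Module Set
open scoped Topology ContDiff RealInnerProductSpace Manifold

namespace Pool.Agent.Helper20.HP
open Pool.Agent.Helper20.PC

theorem kk_num {B 𝔸 : Type*} [NormedAddCommGroup B] [NormedSpace ℝ B] [FiniteDimensional ℝ B]
    [NormedDivisionRing 𝔸] [NormedAlgebra ℝ 𝔸] [FiniteDimensional ℝ 𝔸]
    {h : B → B →L[ℝ] B →L[ℝ] ℝ} {N : B → 𝔸 →L[ℝ] 𝔸 →L[ℝ] ℝ} {A : B → B →L[ℝ] 𝔸} {x : B}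
    (hh : MetAt h x) (hN : FormAt N x) (hA : ContDiffAt ℝ 2 A x)
    (ζ ζ' : B) (η η' : 𝔸) {th thu thv : B} {tv tvu tvv : 𝔸}
    (h1 : IsKH h N A x ζ η ζ' η' th) (h2 : IsKH h N A x ζ η ζ η thu) (h3 : IsKH h N A x ζ' η' ζ' η' thv)
    (h4 : IsKV N A x ζ η ζ' η' tv) (h5 : IsKV N A x ζ η ζ η tvu) (h6 : IsKV N A x ζ' η' ζ' η' tvv) :
    num (KK h N A) (x, 1) (ζ, η - A x ζ) (ζ', η' - A x ζ')
      = kkRHS h N A x ζ η ζ' η' th thu thv tv tvu tvv :=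
  Pool.Agent.Helper50.HP.kk_num hh hN hA ζ ζ' η η' h1 h2 h3 h4 h5 h6

end Pool.Agent.Helper20.HP
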