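import Pool.Agent.Helper20.HPF.R3
import Pool.Agent.Helper87.HP.Q1
import Pool.Agent.Helper57.HP.Q2
import Pool.Agent.Helper28.HP.Q3
import Pool.Agent.Helper96.HP.Q4
import Pool.Agent.Helper91.HP.Q5ad
import Pool.Agent.Helper39.HP.Q5c
import Pool.Agent.Helper76.HP.Q6a
import Pool.Agent.Helper62.HP.Q6b
import Pool.Agent.Helper82.HP.D1
import Pool.Agent.Helper59.HP.B1
import Pool.Agent.Helper41.HP.PA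
import Pool.Agent.Helper67.HP.T1
import Pool.Agent.Helper64.HP.T2
import Pool.Agent.Helper33.HP.T3
import Pool.Agent.Helper50.HP.T4

open Filter Metric Module Set
open scoped Topology ContDiff RealInnerProductSpace Manifold Quaternion

namespace Pool.Agent.Helper20.HP
open Pool.Agent.Helper20.PC

theorem metAt_hE {κ : ℝ} (hκ : |κ| ≤ 1/10) {x : E3} (hx : x ≠ 0) : MetAt (hE κ) x :=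
  Pool.Agent.Helper87.HP.metAt_hE hκ hx

theorem gam_hE {κ : ℝ} (hκ : |κ| ≤ 1/10) {x u v : E3} (hx : ‖x‖ = 1) (hu : ⟪x, u⟫ = 0) (hv : ⟪x, v⟫ = 0) :
    Gam (hE κ) x u v = (2 * κ / sg κ x) • (Hb x u • v + Hb x v • u)
      - (2 * κ / sg κ x * ⟪u, v⟫) • (Hv x - Hb x x • x) + (⟪u, v⟫ : ℝ) • x :=
  Pool.Agent.Helper87.HP.gam_hE hκ hx hu hv

theorem num_hE {κ : ℝ} (hκ : |κ| ≤ 1/10) {x u v : E3} (hx : ‖x‖ = 1) (hu : ⟪x, u⟫ = 0) (hv : ⟪x, v⟫ = 0) :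
    num (hE κ) x u v = (sg κ x ^ 4)⁻¹ * Kc κ x * (‖u‖ ^ 2 * ‖v‖ ^ 2 - ⟪u, v⟫ ^ 2) :=
  Pool.Agent.Helper87.HP.num_hE hκ hx hu hv

theorem contDiffAt_AE {κ ε : ℝ} (hκ : |κ| ≤ 1/10) {x : E3} (hx : x ≠ 0) : ContDiffAt ℝ 2 (AE κ ε) x :=
  Pool.Agent.Helper57.HP.contDiffAt_AE hκ hx

theorem Om_AE {κ ε : ℝ} (hκ : |κ| ≤ 1/10) {x : E3} (hx : x ≠ 0) (u v : E3) :
    Om (AE κ ε) x u v = (1/2 * (sg κ (nn x) ^ 2)⁻¹ * ‖x‖⁻¹ ^ 3 * ⟪x, cr u v⟫) • qimL (om κ ε (nn x)) :=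
  Pool.Agent.Helper57.HP.Om_AE hκ hx u v

theorem DOm_AE {κ ε : ℝ} (hκ : |κ| ≤ 1/10) {x X : E3} (hx : ‖x‖ = 1) (hX : ‖X‖ = 1) (hxX : ⟪x, X⟫ = 0) :
    DOm (hE κ) (AE κ ε) x (jx1 κ x X) (jx1 κ x X) (sg κ x • cr x X) = (1/2 : ℝ) • qimL (dom κ ε x X) :=
  Pool.Agent.Helper28.HP.DOm_AE_of (fun h => fun h1 h2 h3 => gam_hE h h1 h2 h3) (fun h => fun h1 => fun u v => Om_AE h h1 u v) hκ hx hX hxX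

theorem AE_jets {κ ε : ℝ} (hκ : |κ| ≤ 1/10) {x X : E3} (hx : ‖x‖ = 1) (hX : ‖X‖ = 1) (hxX : ⟪x, X⟫ = 0) :
    Gam (hE κ) x (jx1 κ x X) (jx1 κ x X) = - jx2 κ x X ∧
    AE κ ε x (jx1 κ x X) = (1/2 : ℝ) • qimL (jw0 κ ε x X) ∧
    fderiv ℝ (AE κ ε) x (jx1 κ x X) (jx1 κ x X) + AE κ ε x (jx2 κ x X) = (1/2 : ℝ) • qimL (jw1 κ ε x X) :=
  Pool.Agent.Helper96.HP.AE_jets (fun _ _ _ h1 h2 h3 => gam_hE hκ h1 h2 h3) hκ hx hX hxX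

theorem formAt_NE {κ ε T δ : ℝ} (hM : ∀ y : E3, ‖y‖ = 1 → ∀ a, a ≠ 0 → 0 < Mf κ ε T δ y a a)
    {x : E3} (hx : x ≠ 0) : FormAt (NE κ ε T δ) x :=
  Pool.Agent.Helper91.HP.formAt_NE hM hx

theorem cN_NE {κ ε T δ : ℝ} (hκ : |κ| ≤ 1/10) {x X : E3} (hx : ‖x‖ = 1) (hX : ‖X‖ = 1) (hxX : ⟪x, X⟫ = 0)
    (a b : E3) :
    cN1 (NE κ ε T δ) (AE κ ε) x (jx1 κ x X) (qimL a) (qimL b) = -4 * δ ^ 4 * S1 κ ε T x X a b ∧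
    cN2 (hE κ) (NE κ ε T δ) (AE κ ε) x (jx1 κ x X) (jx1 κ x X) (qimL a) (qimL b)
      = -4 * δ ^ 4 * S2 κ ε T x X a b :=
  Pool.Agent.Helper39.HP.cN_NE_of hx hX hxX (AE_jets hκ hx hX hxX) a b

theorem cN_NE' {κ ε T δ : ℝ} (hκ : |κ| ≤ 1/10) {x : E3} (hx : ‖x‖ = 1) (ζ : E3) (a : E3) (p q : ℍ[ℝ]) :
    cN1 (NE κ ε T δ) (AE κ ε) x x p q = 0 ∧ cN1 (NE κ ε T δ) (AE κ ε) x ζ (qimL a) 1 = 0 ∧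
    AE κ ε x x = 0 :=
  Pool.Agent.Helper91.HP.cN_NE' hκ hx ζ a p q

theorem num3_formula {κ ε T δ : ℝ} (hκ : |κ| ≤ 1/10) (hδ : 0 < δ)
    (hM : ∀ y : E3, ‖y‖ = 1 → ∀ a, a ≠ 0 → 0 < Mf κ ε T δ y a a)
    {x X : E3} (hx : ‖x‖ = 1) (hX : ‖X‖ = 1) (hxX : ⟪x, X⟫ = 0) (U V : E3) (ca sa cb sb : ℝ) :
    ∃ t tu tv : E3,
      (∀ e, Mh κ ε T δ x t e = - (1/2) * (δ ^ 2 * (ca * sb * S1 κ ε T x X V e + sa * cb * S1 κ ε T x (cr x X) U e)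
        + δ * (sa * sb) * (Sb κ ε T x V (cr U e) + Sb κ ε T x U (cr V e)))) ∧
      (∀ e, Mh κ ε T δ x tu e = - (δ ^ 2 * (ca * sa) * S1 κ ε T x X U e + δ * sa ^ 2 * Sb κ ε T x U (cr U e))) ∧
      (∀ e, Mh κ ε T δ x tv e = - (δ ^ 2 * (cb * sb) * S1 κ ε T x (cr x X) V e + δ * sb ^ 2 * Sb κ ε T x V (cr V e))) ∧
      num (KK (hE κ) (NE κ ε T δ) (AE κ ε)) (x, 1) (pv κ ε δ x X ca sa U) (pv κ ε δ x (cr x X) cb sb V)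
        = F3 κ ε T δ x X U V ca sa cb sb + Mh κ ε T δ x t t - Mh κ ε T δ x tu tv := by
  have hx0 : x ≠ 0 := by rintro rfl; simp at hx
  exact Pool.Agent.Helper76.HP.num3_formula_of hκ hδ (hM x hx) hx hX hxX
    (fun ζ ζ' η η' th thu thv tv tvu tvv h1 h2 h3 h4 h5 h6 =>
      kk_num (metAt_hE hκ hx0) (formAt_NE hM hx0) (contDiffAt_AE hκ hx0) ζ ζ' η η' h1 h2 h3 h4 h5 h6)
    (metAt_hE hκ hx0) (fun u v hu hv => num_hE hκ hx hu hv) (fun u v => Om_AE hκ hx0 u v)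
    (fun Y hY hxY => DOm_AE hκ hx hY hxY) (formAt_NE hM hx0)
    (fun Y hY hxY a b => cN_NE hκ hx hY hxY a b) (fun ζ a p q => cN_NE' hκ hx ζ a p q) U V ca sa cb sb

theorem num3_lower {κ ε T δ B : ℝ} (hδ : 0 < δ) (hδB : δ ^ 2 * B ≤ 1/100) (hδ1 : δ ≤ 1)
    {x X U V : E3} (hx : ‖x‖ = 1) (hX : ‖X‖ = 1) (hxX : ⟪x, X⟫ = 0)
    (h1 : Bd κ ε T B x X) (h2 : Bd κ ε T B x (cr x X)) (h3 : Bd κ ε T B x ((√2)⁻¹ • (X + cr x X)))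
    (hUU : Mh κ ε T δ x U U = 1) (hVV : Mh κ ε T δ x V V = 1) (hUV : Mh κ ε T δ x U V = 0)
    {ca sa cb sb : ℝ} (ha : ca ^ 2 + sa ^ 2 = 1) (hb : cb ^ 2 + sb ^ 2 = 1) {t tu tv : E3}
    (ht : 0 ≤ Mh κ ε T δ x t t)
    (htu : ∀ e, Mh κ ε T δ x tu e = - (δ ^ 2 * (ca * sa) * S1 κ ε T x X U e + δ * sa ^ 2 * Sb κ ε T x U (cr U e)))
    (htv : ∀ e, Mh κ ε T δ x tv e
      = - (δ ^ 2 * (cb * sb) * S1 κ ε T x (cr x X) V e + δ * sb ^ 2 * Sb κ ε T x V (cr V e))) :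
    Mt κ ε T δ x X U V (ca * cb) (sa * sb) (ca * sb) (sa * cb)
        - 1000 * B ^ 3 * Er δ (ca * cb) (sa * sb) (ca * sb) (sa * cb)
      ≤ F3 κ ε T δ x X U V ca sa cb sb + Mh κ ε T δ x t t - Mh κ ε T δ x tu tv :=
  Pool.Agent.Helper62.HP.num3_lower hδ hδB hδ1 hx hX hxX h1 h2 h3 hUU hVV hUV ha hb ht htu htv

theorem small_delta {B c : ℝ} (hB : 1 ≤ B) (hc : 0 < c) :
    ∃ δ₀ > 0, ∀ δ, 0 < δ → δ ≤ δ₀ → ∀ K l1 l2 q1 q2 xx z m1 m2 : ℝ,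
      |K| ≤ B → |l1| ≤ B → |l2| ≤ B → |q1| ≤ B → |q2| ≤ B → 1/2 ≤ K →
      c ≤ 4 * K * q1 - l1 ^ 2 → c ≤ 4 * K * q2 - l2 ^ 2 →
      xx * z = m1 * m2 → xx ^ 2 + z ^ 2 + m1 ^ 2 + m2 ^ 2 = 1 →
      0 < K * xx ^ 2 + (1/4) * (δ ^ 2)⁻¹ * z ^ 2 + δ * xx * (m1 * l1 + m2 * l2)
        + δ ^ 2 * (m1 ^ 2 * q1 + m2 ^ 2 * q2) - B * Er δ xx z m1 m2 :=
  Pool.Agent.Helper82.HP.small_delta hB hc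

theorem exists_bd (κ ε T : ℝ) (hκ : |κ| ≤ 1/10) :
    ∃ B : ℝ, ∀ x X : E3, ‖x‖ = 1 → ‖X‖ = 1 → ⟪x, X⟫ = 0 → Bd κ ε T B x X :=
  Pool.Agent.Helper59.HP.exists_bd κ ε T hκ

theorem principal {κ ε T δ : ℝ} (hκ : |κ| ≤ 1/10) (hδ : 0 < δ) {x : E3} (hx : ‖x‖ = 1)
    (hM : ∀ y : E3, ‖y‖ = 1 → ∀ a, a ≠ 0 → 0 < Mf κ ε T δ y a a)
    {u v : E3 × ℍ[ℝ]} (hu : ⟪x, u.1⟫ = 0) (hu' : u.2.re = 0) (hv : ⟪x, v.1⟫ = 0) (hv' : v.2.re = 0)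
    (huv : LinearIndependent ℝ ![u, v]) :
    ∃ (X U V : E3) (ca sa cb sb a b c d : ℝ), ‖X‖ = 1 ∧ ⟪x, X⟫ = 0 ∧ ca ^ 2 + sa ^ 2 = 1 ∧ cb ^ 2 + sb ^ 2 = 1 ∧
      Mh κ ε T δ x U U = 1 ∧ Mh κ ε T δ x V V = 1 ∧ Mh κ ε T δ x U V = 0 ∧ a * d - b * c ≠ 0 ∧
      u = a • pv κ ε δ x X ca sa U + b • pv κ ε δ x (cr x X) cb sb V ∧
      v = c • pv κ ε δ x X ca sa U + d • pv κ ε δ x (cr x X) cb sb V :=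
  Pool.Agent.Helper41.HP.principal hκ hδ hx hM hu hu' hv hv' huv

theorem Pf_eq_Pe {κ ε T : ℝ} (hε : ε ≠ 0) {x X : E3} (hx : ‖x‖ = 1) (hX : ‖X‖ = 1) (hxX : ⟪x, X⟫ = 0)
    (c z y : ℝ) :
    Pf κ ε T x X (c • x + z • X + (y / ε) • cr x X) = Pe κ ε T x X c z y :=
  Pool.Agent.Helper67.HP.Pf_eq_Pe hε hx hX hxX c z y

theorem key_identity :
    ∃ Wf : ℝ × E3 × E3 → ℝ, Continuous Wf ∧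
      (∀ κ : ℝ, ∀ x X : E3, ‖x‖ = 1 → ‖X‖ = 1 → ⟪x, X⟫ = 0 →
        (QG κ (Jx κ x X) (Jn κ x X)).c = κ ^ 2 * Wf (κ, x, X)) ∧
      (∀ x X : E3, ‖x‖ = 1 → ‖X‖ = 1 → ⟪x, X⟫ = 0 → cr x X 2 = 0 → 7/8 ≤ Wf (0, x, X)) :=
  Pool.Agent.Helper64.HP.key_identity

theorem tstage_kappa :
    ∃ κ T : ℝ, 0 < κ ∧ κ ≤ 1/10 ∧ 0 < T ∧ (∀ x : E3, ‖x‖ = 1 → 1/2 ≤ Kc κ x) ∧
      ∀ x X : E3, ‖x‖ = 1 → ‖X‖ = 1 → ⟪x, X⟫ = 0 → ∀ c z y : ℝ, c ^ 2 + z ^ 2 + y ^ 2 ≠ 0 →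
        0 < Pe κ 0 T x X c z y :=
  Pool.Agent.Helper33.HP.tstage_kappa key_identity

theorem tstage :
    ∃ κ ε T c : ℝ, 0 < κ ∧ κ ≤ 1/10 ∧ 0 < ε ∧ 0 < T ∧ 0 < c ∧ (∀ x : E3, ‖x‖ = 1 → 1/2 ≤ Kc κ x) ∧
      ∀ x X b : E3, ‖x‖ = 1 → ‖X‖ = 1 → ⟪x, X⟫ = 0 → c * ‖b‖ ^ 2 ≤ Pf κ ε T x X b :=
  Pool.Agent.Helper50.HP.tstage (fun h1 => fun h2 h3 h4 c z y => Pf_eq_Pe h1 h2 h3 h4 c z y) tstage_kappa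

end Pool.Agent.Helper20.HP
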