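import Pool.Agent.Helper20.HPF.R4
import Pool.Agent.Helper81.HP.F1
import Pool.Agent.Helper23.HP.F5
import Pool.Agent.Helper93.HP.F4
import Pool.Agent.Helper74.HP.F67
import Pool.Agent.Helper9.HP.F8
import Pool.Agent.Helper52.HP.F9

open Filter Metric Module Set
open scoped Topology ContDiff RealInnerProductSpace Manifold Quaternion

namespace Pool.Agent.Helper20.HP
open Pool.Agent.Helper20.PC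

theorem metAt_KK {κ ε T δ : ℝ} (hκ : |κ| ≤ 1/10) (hM : ∀ y : E3, ‖y‖ = 1 → ∀ a, a ≠ 0 → 0 < Mf κ ε T δ y a a)
    {z : E3 × ℍ[ℝ]} (hz1 : z.1 ≠ 0) (hz2 : z.2 ≠ 0) :
    MetAt (KK (hE κ) (NE κ ε T δ) (AE κ ε)) z :=
  Pool.Agent.Helper81.HP.metAt_KK (fun h => fun h1 => metAt_hE h h1) (fun h => fun h1 => contDiffAt_AE h h1) (fun h => fun h1 => formAt_NE h h1) hκ hM hz1 hz2

theorem ext_g3 {κ ε T δ : ℝ} (p : sphere (0 : E3) 1 × sphere (0 : ℍ[ℝ]) 1) {z : E3 × ℍ[ℝ]}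
    (hz1 : z.1 ≠ 0) (hz2 : z.2 ≠ 0) (u v : E3 × ℍ[ℝ]) :
    extM p (g3 κ ε T δ) z u v = KK (hE κ) (NE κ ε T δ) (AE κ ε) z u v :=
  Pool.Agent.Helper23.HP.ext_g3 p hz1 hz2 u v

theorem num_right {κ ε T δ : ℝ} (hκ : |κ| ≤ 1/10) (hM : ∀ y : E3, ‖y‖ = 1 → ∀ a, a ≠ 0 → 0 < Mf κ ε T δ y a a)
    {x : E3} (hx : x ≠ 0) {q : ℍ[ℝ]} (hq : q ≠ 0) (u v : E3 × ℍ[ℝ]) :
    num (KK (hE κ) (NE κ ε T δ) (AE κ ε)) (x, q) u v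
      = num (KK (hE κ) (NE κ ε T δ) (AE κ ε)) (x, 1) (u.1, u.2 * q⁻¹) (v.1, v.2 * q⁻¹) :=
  Pool.Agent.Helper81.HP.num_right (fun h => fun h1 => metAt_hE h h1) (fun h => fun h1 => contDiffAt_AE h h1) (fun h => fun h1 => formAt_NE h h1) hκ hM hx hq u v

theorem submersion {κ ε T δ : ℝ} (hκ : |κ| ≤ 1/10) (hM : ∀ y : E3, ‖y‖ = 1 → ∀ a, a ≠ 0 → 0 < Mf κ ε T δ y a a)
    (p : sphere (0 : E3) 1 × sphere (0 : E3) 1) {z : E3 × ℍ[ℝ]} (hz1 : z.1 ≠ 0) (hz2 : z.2 ≠ 0) :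
    ContDiffAt ℝ 3 prj z ∧ ContDiffAt ℝ 2 (bet κ ε T δ) z ∧ (prj z).1 ≠ 0 ∧ (prj z).2 ≠ 0 ∧
    (∀ (a' : E3 × E3) (s : ℝ), ∃ a, fderiv ℝ prj z a = a' ∧ bet κ ε T δ z a = s) ∧
    (∀ a b, KK (hE κ) (NE κ ε T δ) (AE κ ε) z a b
      = extM p (g2 κ ε T δ) (prj z) (fderiv ℝ prj z a) (fderiv ℝ prj z b)
        + bet κ ε T δ z a * bet κ ε T δ z b) :=
  Pool.Agent.Helper93.HP.submersion hκ hM p hz1 hz2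

theorem metAt_ext_g2 {κ ε T δ : ℝ} (hκ : |κ| ≤ 1/10) (hM : ∀ y : E3, ‖y‖ = 1 → ∀ a, a ≠ 0 → 0 < Mf κ ε T δ y a a)
    (p : sphere (0 : E3) 1 × sphere (0 : E3) 1) {z : E3 × E3} (hz1 : z.1 ≠ 0) (hz2 : z.2 ≠ 0) :
    MetAt (extM p (g2 κ ε T δ)) z :=
  Pool.Agent.Helper23.HP.metAt_ext_g2 hκ hM p hz1 hz2

theorem g3_metric {κ ε T δ : ℝ} (hκ : |κ| ≤ 1/10) (hM : ∀ y : E3, ‖y‖ = 1 → ∀ a, a ≠ 0 → 0 < Mf κ ε T δ y a a) :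
    ContMDiff ((𝓡 2).prod (𝓡 3)) 𝓘(ℝ, (E3 × ℍ[ℝ]) →L[ℝ] (E3 × ℍ[ℝ]) →L[ℝ] ℝ) ∞ (g3 κ ε T δ) ∧
    (∀ p u v, g3 κ ε T δ p u v = g3 κ ε T δ p v u) ∧
    (∀ (p : sphere (0 : E3) 1 × sphere (0 : ℍ[ℝ]) 1) (u : E3 × ℍ[ℝ]), ⟪(p.1 : E3), u.1⟫ = 0 →
      ⟪(p.2 : ℍ[ℝ]), u.2⟫ = 0 → u ≠ 0 → 0 < g3 κ ε T δ p u u) :=
  Pool.Agent.Helper74.HP.g3_metric hκ hM

theorem g2_metric {κ ε T δ : ℝ} (hκ : |κ| ≤ 1/10) (hM : ∀ y : E3, ‖y‖ = 1 → ∀ a, a ≠ 0 → 0 < Mf κ ε T δ y a a) :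
    ContMDiff ((𝓡 2).prod (𝓡 2)) 𝓘(ℝ, (E3 × E3) →L[ℝ] (E3 × E3) →L[ℝ] ℝ) ∞ (g2 κ ε T δ) ∧
    (∀ p u v, g2 κ ε T δ p u v = g2 κ ε T δ p v u) ∧
    (∀ (p : sphere (0 : E3) 1 × sphere (0 : E3) 1) (u : E3 × E3), ⟪(p.1 : E3), u.1⟫ = 0 →
      ⟪(p.2 : E3), u.2⟫ = 0 → u ≠ 0 → 0 < g2 κ ε T δ p u u) :=
  Pool.Agent.Helper74.HP.g2_metric hκ hM

end Pool.Agent.Helper20.HP
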