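import Pool.Agent.Helper20.HPF.M1

open Filter Metric Module Set
open scoped Topology ContDiff RealInnerProductSpace Manifold Quaternion

namespace Pool.Agent.Helper20.HP
open Pool.Agent.Helper20.PC

-- F8 : final theorem for S² × S³
theorem final3 :
    ∃ g : sphere (0 : E3) 1 × sphere (0 : ℍ[ℝ]) 1 → (E3 × ℍ[ℝ]) →L[ℝ] (E3 × ℍ[ℝ]) →L[ℝ] ℝ,
      ContMDiff ((𝓡 2).prod (𝓡 3)) 𝓘(ℝ, (E3 × ℍ[ℝ]) →L[ℝ] (E3 × ℍ[ℝ]) →L[ℝ] ℝ) ∞ g ∧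
      (∀ p u v, g p u v = g p v u) ∧
      (∀ (p : sphere (0 : E3) 1 × sphere (0 : ℍ[ℝ]) 1) (u : E3 × ℍ[ℝ]), ⟪(p.1 : E3), u.1⟫ = 0 →
        ⟪(p.2 : ℍ[ℝ]), u.2⟫ = 0 → u ≠ 0 → 0 < g p u u) ∧
      ∀ (p : sphere (0 : E3) 1 × sphere (0 : ℍ[ℝ]) 1) (u v : E3 × ℍ[ℝ]),
        ⟪(p.1 : E3), u.1⟫ = 0 → ⟪(p.2 : ℍ[ℝ]), u.2⟫ = 0 → ⟪(p.1 : E3), v.1⟫ = 0 → ⟪(p.2 : ℍ[ℝ]), v.2⟫ = 0 →
        LinearIndependent ℝ ![u, v] → 0 < sectional g p u v :=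
  Pool.Agent.Helper9.HP.final3 main3 (fun h1 => fun h2 => fun h3 h4 => metAt_KK h1 h2 h3 h4)
    (fun p => fun h1 h2 u v => ext_g3 p h1 h2 u v)
    (fun h1 => fun h2 => fun h3 => fun h4 u v => num_right h1 h2 h3 h4 u v)
    (fun h1 => fun h2 => g3_metric h1 h2)

-- F9 : final theorem for S² × S²
theorem final2 :
    ∃ g : sphere (0 : E3) 1 × sphere (0 : E3) 1 → (E3 × E3) →L[ℝ] (E3 × E3) →L[ℝ] ℝ,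
      ContMDiff ((𝓡 2).prod (𝓡 2)) 𝓘(ℝ, (E3 × E3) →L[ℝ] (E3 × E3) →L[ℝ] ℝ) ∞ g ∧
      (∀ p u v, g p u v = g p v u) ∧
      (∀ (p : sphere (0 : E3) 1 × sphere (0 : E3) 1) (u : E3 × E3), ⟪(p.1 : E3), u.1⟫ = 0 →
        ⟪(p.2 : E3), u.2⟫ = 0 → u ≠ 0 → 0 < g p u u) ∧
      ∀ (p : sphere (0 : E3) 1 × sphere (0 : E3) 1) (u v : E3 × E3),
        ⟪(p.1 : E3), u.1⟫ = 0 → ⟪(p.2 : E3), u.2⟫ = 0 → ⟪(p.1 : E3), v.1⟫ = 0 → ⟪(p.2 : E3), v.2⟫ = 0 →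
        LinearIndependent ℝ ![u, v] → 0 < sectional g p u v :=
  Pool.Agent.Helper52.HP.final2_of main3
    (fun _ _ _ _ _ h1 h2 h3 h4 h5 h6 _ _ h7 h8 => num_submersion h1 h2 h3 h4 h5 h6 h7 h8)
    (fun _ _ _ _ h1 h2 _ h3 h4 => metAt_KK h1 h2 h3 h4)
    (fun _ _ _ _ h1 h2 _ h3 _ h4 _ _ => num_right h1 h2 h3 h4 _ _)
    (fun _ _ _ _ h1 h2 p _ h3 h4 => submersion h1 h2 p h3 h4)
    (fun _ _ _ _ h1 h2 p _ h3 h4 => metAt_ext_g2 h1 h2 p h3 h4)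
    (fun _ _ _ _ h1 h2 => g2_metric h1 h2)

end Pool.Agent.Helper20.HP
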